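import Mathlib

/-!
Pairs of permutations under which a set has the same preimage.
-/

set_option autoImplicit false

namespace Pool.Agent.N318.BC

open Finset

theorem exists_perm {α : Type*} [Fintype α] [DecidableEq α] (J B : Finset α)
    (h : B.card = J.card) : ∃ π : Equiv.Perm α, ∀ x, x ∈ J ↔ π x ∈ B := by
  have e : {x // x ∈ J} ≃ {x // x ∈ B} := Fintype.equivOfCardEq (by simp [h])
  refine ⟨e.extendSubtype, fun x => ⟨fun hx => ?_, fun hx => ?_⟩⟩
  · exact Equiv.extendSubtype_mem e x hx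
  · by_contra hn
    exact Equiv.extendSubtype_not_mem e x hn hx

theorem pairs_perm {α : Type*} [Fintype α] [DecidableEq α] (J : Finset α) :
    ((univ : Finset (Equiv.Perm α × Equiv.Perm α)).filter
      (fun p => ∀ i, p.1 i ∈ J ↔ p.2 i ∈ J)).card * (Fintype.card α).choose J.card
      ≤ (Fintype.card (Equiv.Perm α)) ^ 2 := by
  classical
  have hπ : ∀ B : Finset α, ∃ π : Equiv.Perm α, B.card = J.card → ∀ x, x ∈ J ↔ π x ∈ B := by
    intro B
    by_cases h : B.card = J.card
    · obtain ⟨π, hp⟩ := exists_perm J B h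
      exact ⟨π, fun _ => hp⟩
    · exact ⟨1, fun h' => absurd h' h⟩
  choose π hπ using hπ
  have hc : (Fintype.card α).choose J.card = (powersetCard J.card (univ : Finset α)).card := by
    rw [card_powersetCard, card_univ]
  rw [hc, ← card_product, sq, ← Fintype.card_prod, ← card_univ]
  refine card_le_card_of_injOn (fun z => (z.1.1, z.1.2.trans (π z.2))) (fun _ _ => mem_coe.2 (mem_univ _)) ?_
  rintro ⟨⟨p, p'⟩, B⟩ h ⟨⟨r, r'⟩, C⟩ h' he
  simp only [coe_product, Set.mem_prod, mem_coe, mem_filter, mem_univ, true_and,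
    mem_powersetCard, subset_univ] at h h'
  simp only [Prod.mk.injEq] at he
  obtain ⟨h1, h2⟩ := he
  subst h1
  have key : ∀ i, (p'.trans (π B)) i ∈ B ↔ p i ∈ J := by
    intro i
    rw [Equiv.trans_apply, ← hπ B h.2, ← h.1 i]
  have key' : ∀ i, (r'.trans (π C)) i ∈ C ↔ p i ∈ J := by
    intro i
    rw [Equiv.trans_apply, ← hπ C h'.2, ← h'.1 i]
  have hBC : B = C := by
    ext b
    have e1 := key ((p'.trans (π B)).symm b)
    have e2 := key' ((p'.trans (π B)).symm b)
    rw [Equiv.apply_symm_apply] at e1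
    rw [← h2, Equiv.apply_symm_apply] at e2
    rw [e1, e2]
  subst hBC
  have h3 : p' = r' := by
    ext i
    have := congrArg (fun e : Equiv.Perm α => e i) h2
    simpa using this
  rw [h3]

/-- families of permutations -/
theorem pairs_fam {α : Type*} [Fintype α] [DecidableEq α] (K : ℕ) (J : Finset α) :
    ((univ : Finset ((Fin K → Equiv.Perm α) × (Fin K → Equiv.Perm α))).filter
      (fun p => ∀ k i, p.1 k i ∈ J ↔ p.2 k i ∈ J)).card * ((Fintype.card α).choose J.card) ^ K
      ≤ (Fintype.card (Fin K → Equiv.Perm α)) ^ 2 := by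
  classical
  have h1 : ((univ : Finset ((Fin K → Equiv.Perm α) × (Fin K → Equiv.Perm α))).filter
      (fun p => ∀ k i, p.1 k i ∈ J ↔ p.2 k i ∈ J)).card
      ≤ ((univ : Finset (Equiv.Perm α × Equiv.Perm α)).filter
        (fun p => ∀ i, p.1 i ∈ J ↔ p.2 i ∈ J)).card ^ K := by
    have hK : ((univ : Finset (Equiv.Perm α × Equiv.Perm α)).filter
        (fun p => ∀ i, p.1 i ∈ J ↔ p.2 i ∈ J)).card ^ K
        = (Fintype.piFinset (fun _ : Fin K => (univ : Finset (Equiv.Perm α × Equiv.Perm α)).filter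
        (fun p => ∀ i, p.1 i ∈ J ↔ p.2 i ∈ J))).card := by
      rw [Fintype.card_piFinset, prod_const, card_univ, Fintype.card_fin]
    rw [hK]
    refine card_le_card_of_injOn (fun z k => (z.1 k, z.2 k)) ?_ ?_
    · intro z hz
      simp only [coe_filter, mem_univ, true_and, Set.mem_setOf_eq] at hz
      rw [mem_coe, Fintype.mem_piFinset]
      intro k
      rw [mem_filter]
      exact ⟨mem_univ _, hz k⟩
    · rintro ⟨a, b⟩ _ ⟨c, d⟩ _ he
      have h2 : ∀ k, (a k, b k) = (c k, d k) := fun k => congrFun he k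
      rw [Prod.mk.injEq]
      exact ⟨funext fun k => (Prod.mk.inj (h2 k)).1, funext fun k => (Prod.mk.inj (h2 k)).2⟩
  calc _ ≤ ((univ : Finset (Equiv.Perm α × Equiv.Perm α)).filter
        (fun p => ∀ i, p.1 i ∈ J ↔ p.2 i ∈ J)).card ^ K * ((Fintype.card α).choose J.card) ^ K :=
        Nat.mul_le_mul_right _ h1
    _ = (((univ : Finset (Equiv.Perm α × Equiv.Perm α)).filter
        (fun p => ∀ i, p.1 i ∈ J ↔ p.2 i ∈ J)).card * ((Fintype.card α).choose J.card)) ^ K := by
        rw [mul_pow]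
    _ ≤ ((Fintype.card (Equiv.Perm α)) ^ 2) ^ K := Nat.pow_le_pow_left (pairs_perm J) K
    _ = _ := by
        rw [Fintype.card_fun, Fintype.card_fin]
        ring

end Pool.Agent.N318.BC
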