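import Pool.Agent.N318.BC.A

/-!
Random sign changes at the points of a set, placed on the letters of a word by maps: the number of
collisions of two placements.
-/

set_option autoImplicit false

namespace Pool.Agent.N318.BC

open Finset

variable {ι : Type*} [Fintype ι] [DecidableEq ι] {n : ℕ}

/-- the sign change of the word under the placement `φ` of the points, if the signs of the points
of `S` are changed -/
def sgn (φ : ι → Option (Fin n)) (S : Finset ι) (j : Fin n) : ℤˣ :=
  ∏ q ∈ S, (if φ q = some j then -1 else 1)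

theorem two_pow_ind (v : Fin n → ℤˣ) :
    (2 : ℤ) ^ n * (if v = 1 then 1 else 0) = ∑ J : Finset (Fin n), ∏ j ∈ J, ((v j : ℤˣ) : ℤ) := by
  have h1 : ∏ j : Fin n, (1 + ((v j : ℤˣ) : ℤ)) = ∑ J : Finset (Fin n), ∏ j ∈ J, ((v j : ℤˣ) : ℤ) := by
    rw [Finset.prod_one_add]
    rfl
  rw [← h1]
  split_ifs with h
  · rw [h]
    simp
  · have : ∃ j, v j ≠ 1 := by
      by_contra hc
      push Not at hc
      exact h (funext hc)
    obtain ⟨j, hj⟩ := this
    rw [mul_zero]
    symm
    apply prod_eq_zero (mem_univ j)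
    rcases Int.units_eq_one_or (v j) with h2 | h2
    · exact absurd h2 hj
    · rw [h2]
      simp

omit [Fintype ι] [DecidableEq ι] in
theorem prod_ite_some (φ : ι → Option (Fin n)) (J : Finset (Fin n)) (q : ι) :
    ∏ j ∈ J, (if φ q = some j then (-1 : ℤ) else 1) = if (∃ j ∈ J, φ q = some j) then -1 else 1 := by
  split_ifs with h
  · obtain ⟨j, hj, hq⟩ := h
    rw [prod_eq_single_of_mem j hj]
    · rw [if_pos hq]
    · intro b _ hb
      rw [if_neg]
      rw [hq]
      intro h
      exact hb (Option.some.inj h).symm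
  · apply prod_eq_one
    intro j hj
    rw [if_neg]
    intro hq
    exact h ⟨j, hj, hq⟩

theorem sum_sgn (φ φ' : ι → Option (Fin n)) (J : Finset (Fin n)) :
    ∑ S : Finset ι, ∏ j ∈ J, (((sgn φ S j * sgn φ' S j : ℤˣ)) : ℤ)
      = if (∀ q, (∃ j ∈ J, φ q = some j) ↔ ∃ j ∈ J, φ' q = some j) then (2 : ℤ) ^ Fintype.card ι
        else 0 := by
  classical
  have h1 : ∀ S : Finset ι, ∏ j ∈ J, (((sgn φ S j * sgn φ' S j : ℤˣ)) : ℤ)
      = ∏ q ∈ S, ((if (∃ j ∈ J, φ q = some j) then (-1 : ℤ) else 1) *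
        (if (∃ j ∈ J, φ' q = some j) then (-1 : ℤ) else 1)) := by
    intro S
    unfold sgn
    push_cast
    rw [prod_mul_distrib, prod_comm, prod_comm (s := J) (t := S), prod_mul_distrib]
    congr 1
    · apply prod_congr rfl
      intro q _
      rw [← prod_ite_some φ J q]
      apply prod_congr rfl
      intro j _
      split_ifs <;> simp
    · apply prod_congr rfl
      intro q _
      rw [← prod_ite_some φ' J q]
      apply prod_congr rfl
      intro j _
      split_ifs <;> simp
  rw [sum_congr rfl fun S _ => h1 S]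
  have h2 : ∑ S : Finset ι, ∏ q ∈ S, ((if (∃ j ∈ J, φ q = some j) then (-1 : ℤ) else 1) *
        (if (∃ j ∈ J, φ' q = some j) then (-1 : ℤ) else 1))
      = ∏ q : ι, (1 + ((if (∃ j ∈ J, φ q = some j) then (-1 : ℤ) else 1) *
        (if (∃ j ∈ J, φ' q = some j) then (-1 : ℤ) else 1))) := by
    rw [Finset.prod_one_add]
    rfl
  rw [h2]
  split_ifs with h
  · have : ∀ q : ι, (1 + ((if (∃ j ∈ J, φ q = some j) then (-1 : ℤ) else 1) *
        (if (∃ j ∈ J, φ' q = some j) then (-1 : ℤ) else 1))) = 2 := by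
      intro q
      have := h q
      by_cases hq : ∃ j ∈ J, φ q = some j
      · rw [if_pos hq, if_pos (this.1 hq)]
        norm_num
      · rw [if_neg hq, if_neg (fun h' => hq (this.2 h'))]
        norm_num
    rw [prod_congr rfl fun q _ => this q, prod_const, card_univ]
  · push Not at h
    obtain ⟨q, hq⟩ := h
    apply prod_eq_zero (mem_univ q)
    rcases hq with ⟨h3, h4⟩ | ⟨h3, h4⟩
    · rw [if_pos h3, if_neg]
      · norm_num
      · push Not
        exact h4
    · rw [if_neg, if_pos h4]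
      · norm_num
      · push Not
        exact h3

theorem coll (φ φ' : ι → Option (Fin n)) (u u' : Fin n → ℤˣ) :
    (2 : ℤ) ^ n * ((univ : Finset (Finset ι)).filter (fun S => u * sgn φ S = u' * sgn φ' S)).card
      ≤ 2 ^ Fintype.card ι * ((univ : Finset (Finset (Fin n))).filter
        (fun J => ∀ q, (∃ j ∈ J, φ q = some j) ↔ ∃ j ∈ J, φ' q = some j)).card := by
  classical
  have h0 : ∀ S : Finset ι, (u * sgn φ S = u' * sgn φ' S) ↔
      ((u * u') * (sgn φ S * sgn φ' S) = 1) := by
    intro S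
    have e : ∀ w : Fin n → ℤˣ, w * w = 1 := fun w => funext fun j => Int.units_mul_self (w j)
    constructor
    · intro h
      calc (u * u') * (sgn φ S * sgn φ' S) = (u * sgn φ S) * (u' * sgn φ' S) := by
            rw [mul_mul_mul_comm]
        _ = 1 := by rw [h, e]
    · intro h
      calc u * sgn φ S = (u * sgn φ S) * ((u' * sgn φ' S) * (u' * sgn φ' S)) := by rw [e, mul_one]
        _ = ((u * sgn φ S) * (u' * sgn φ' S)) * (u' * sgn φ' S) := by
            rw [mul_assoc (u * sgn φ S)]
        _ = ((u * u') * (sgn φ S * sgn φ' S)) * (u' * sgn φ' S) := by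
            rw [mul_mul_mul_comm u (sgn φ S)]
        _ = _ := by rw [h, one_mul]
  have h1 : (2 : ℤ) ^ n * ((univ : Finset (Finset ι)).filter
      (fun S => u * sgn φ S = u' * sgn φ' S)).card
      = ∑ S : Finset ι, ∑ J : Finset (Fin n),
        ∏ j ∈ J, ((((u * u') * (sgn φ S * sgn φ' S)) j : ℤˣ) : ℤ) := by
    rw [card_filter]
    push_cast
    rw [mul_sum]
    apply sum_congr rfl
    intro S _
    rw [← two_pow_ind]
    simp only [h0 S]
  rw [h1, sum_comm, card_filter]
  push_cast
  rw [mul_sum]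
  apply sum_le_sum
  intro J _
  have h2 : ∀ S : Finset ι, ∏ j ∈ J, ((((u * u') * (sgn φ S * sgn φ' S)) j : ℤˣ) : ℤ)
      = (∏ j ∈ J, (((u * u') j : ℤˣ) : ℤ)) * ∏ j ∈ J, (((sgn φ S j * sgn φ' S j : ℤˣ)) : ℤ) := by
    intro S
    rw [← prod_mul_distrib]
    apply prod_congr rfl
    intro j _
    simp only [Pi.mul_apply, Units.val_mul]
  rw [sum_congr rfl fun S _ => h2 S, ← mul_sum, sum_sgn]
  have h3 : (∏ j ∈ J, (((u * u') j : ℤˣ) : ℤ)) ≤ 1 := by
    have : (∏ j ∈ J, (((u * u') j : ℤˣ) : ℤ)) = (((∏ j ∈ J, (u * u') j : ℤˣ)) : ℤ) := by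
      push_cast
      rfl
    rw [this]
    rcases Int.units_eq_one_or (∏ j ∈ J, (u * u') j) with h | h
    · rw [h]
      simp
    · rw [h]
      simp
  split_ifs with h
  · have : (0 : ℤ) < 2 ^ Fintype.card ι := by positivity
    nlinarith
  · simp

end Pool.Agent.N318.BC
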