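import Pool.Agent.N318.BC.B

/-!
The second moment: how many pairs (sign changes, word) are reached.
-/

set_option autoImplicit false

namespace Pool.Agent.N318.BC

open Finset

/-- the placement of the points given by a family of permutations -/
def pl {n K : ℕ} (φ : Fin K → Equiv.Perm (Option (Fin n))) : Fin K × Option (Fin n) → Option (Fin n) :=
  fun q => φ q.1 q.2

theorem pairs_J (n K : ℕ) (J : Finset (Fin n)) :
    ((univ : Finset ((Fin K → Equiv.Perm (Option (Fin n))) × (Fin K → Equiv.Perm (Option (Fin n))))).filter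
      (fun p => ∀ q, (∃ j ∈ J, pl p.1 q = some j) ↔ ∃ j ∈ J, pl p.2 q = some j)).card
      * ((n + 1).choose J.card) ^ K
      ≤ (Fintype.card (Fin K → Equiv.Perm (Option (Fin n)))) ^ 2 := by
  classical
  have h := pairs_fam (α := Option (Fin n)) K (J.map Function.Embedding.some)
  rw [card_map, Fintype.card_option, Fintype.card_fin] at h
  refine le_trans (Nat.mul_le_mul_right _ (card_le_card ?_)) h
  intro p hp
  rw [mem_filter] at hp ⊢
  refine ⟨mem_univ _, fun k i => ?_⟩
  have := hp.2 (k, i)
  unfold pl at this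
  simp only [mem_map, Function.Embedding.some_apply]
  constructor
  · rintro ⟨a, ha, hb⟩
    obtain ⟨j, hj, hj'⟩ := this.1 ⟨a, ha, hb.symm⟩
    exact ⟨j, hj, hj'.symm⟩
  · rintro ⟨a, ha, hb⟩
    obtain ⟨j, hj, hj'⟩ := this.2 ⟨a, ha, hb.symm⟩
    exact ⟨j, hj, hj'.symm⟩

/-- the pairs (set of points whose signs are changed, word) which are reached by some placement -/
noncomputable def reached {n K : ℕ} (u : (Fin K → Equiv.Perm (Option (Fin n))) → Fin n → ℤˣ) :
    Finset (Finset (Fin K × Option (Fin n)) × (Fin n → ℤˣ)) := by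
  classical
  exact univ.filter (fun z => ∃ φ, u φ * sgn (pl φ) z.1 = z.2)

/-- the constant -/
noncomputable def kap (n K : ℕ) : ℝ := ∑ J : Finset (Fin n), (1 / (((n + 1).choose J.card : ℕ) : ℝ)) ^ K

theorem second (n K : ℕ) (u : (Fin K → Equiv.Perm (Option (Fin n))) → Fin n → ℤˣ) :
    (2 : ℝ) ^ (K * (n + 1)) * 2 ^ n ≤ (reached u).card * kap n K := by
  classical
  set A : ℝ := (Fintype.card (Fin K → Equiv.Perm (Option (Fin n))) : ℝ) with hA
  have hApos : 0 < A := by
    rw [hA]
    exact_mod_cast Fintype.card_pos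
  have hι : Fintype.card (Fin K × Option (Fin n)) = K * (n + 1) := by
    rw [Fintype.card_prod, Fintype.card_fin, Fintype.card_option, Fintype.card_fin]
  -- the counting function
  set N : Finset (Fin K × Option (Fin n)) × (Fin n → ℤˣ) → ℝ :=
    fun z => (((univ : Finset (Fin K → Equiv.Perm (Option (Fin n)))).filter (fun φ => u φ * sgn (pl φ) z.1 = z.2)).card : ℝ) with hN
  have hsum : ∑ z, N z = 2 ^ (K * (n + 1)) * A := by
    rw [Fintype.sum_prod_type]
    have : ∀ S : Finset (Fin K × Option (Fin n)), ∑ t : Fin n → ℤˣ, N (S, t) = A := by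
      intro S
      simp only [hN]
      rw [← Nat.cast_sum, hA, ← card_univ, Nat.cast_inj]
      symm
      rw [← card_eq_sum_card_fiberwise (f := fun φ : (Fin K → Equiv.Perm (Option (Fin n))) => u φ * sgn (pl φ) S) (t := univ)]
      intro _ _
      exact mem_coe.2 (mem_univ _)
    rw [sum_congr rfl fun S _ => this S, sum_const, card_univ, Fintype.card_finset, hι, nsmul_eq_mul]
    push_cast
    ring
  have hsq : ∑ z, N z ^ 2 ≤ 2 ^ (K * (n + 1)) / 2 ^ n * (A ^ 2 * kap n K) := by
    have h1 : ∑ z, N z ^ 2 = ∑ p : (Fin K → Equiv.Perm (Option (Fin n))) × (Fin K → Equiv.Perm (Option (Fin n))), (((univ : Finset (Finset (Fin K × Option (Fin n)))).filter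
        (fun S => u p.1 * sgn (pl p.1) S = u p.2 * sgn (pl p.2) S)).card : ℝ) := by
      have e1 : ∀ z : Finset (Fin K × Option (Fin n)) × (Fin n → ℤˣ), N z ^ 2
          = ∑ p : (Fin K → Equiv.Perm (Option (Fin n))) × (Fin K → Equiv.Perm (Option (Fin n))), (if u p.1 * sgn (pl p.1) z.1 = z.2 ∧ u p.2 * sgn (pl p.2) z.1 = z.2
            then (1 : ℝ) else 0) := by
        intro z
        simp only [hN]
        rw [Fintype.sum_prod_type, sq, card_filter]
        push_cast
        rw [sum_mul_sum]
        apply sum_congr rfl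
        intro a _
        apply sum_congr rfl
        intro b _
        by_cases ha : u a * sgn (pl a) z.1 = z.2
        · by_cases hb : u b * sgn (pl b) z.1 = z.2
          · simp [ha, hb]
          · simp [ha, hb]
        · simp [ha]
      rw [sum_congr rfl fun z _ => e1 z, sum_comm]
      apply sum_congr rfl
      intro p _
      rw [card_filter]
      push_cast
      rw [Fintype.sum_prod_type]
      apply sum_congr rfl
      intro S _
      by_cases h : u p.1 * sgn (pl p.1) S = u p.2 * sgn (pl p.2) S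
      · rw [if_pos h, sum_eq_single (u p.1 * sgn (pl p.1) S)]
        · rw [if_pos ⟨rfl, h.symm⟩]
        · intro t _ ht
          rw [if_neg]
          rintro ⟨h', -⟩
          exact ht h'.symm
        · intro h'
          exact absurd (mem_univ _) h'
      · rw [if_neg h]
        apply sum_eq_zero
        intro t _
        rw [if_neg]
        rintro ⟨h', h''⟩
        exact h (h'.trans h''.symm)
    have h2 : ∀ p : (Fin K → Equiv.Perm (Option (Fin n))) × (Fin K → Equiv.Perm (Option (Fin n))), (((univ : Finset (Finset (Fin K × Option (Fin n)))).filter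
        (fun S => u p.1 * sgn (pl p.1) S = u p.2 * sgn (pl p.2) S)).card : ℝ)
        ≤ 2 ^ (K * (n + 1)) / 2 ^ n * ∑ J : Finset (Fin n),
          (if (∀ q, (∃ j ∈ J, pl p.1 q = some j) ↔ ∃ j ∈ J, pl p.2 q = some j) then (1 : ℝ) else 0) := by
      intro p
      have := coll (pl p.1) (pl p.2) (u p.1) (u p.2)
      rw [hι] at this
      have h3 : (2 : ℝ) ^ n * (((univ : Finset (Finset (Fin K × Option (Fin n)))).filter
        (fun S => u p.1 * sgn (pl p.1) S = u p.2 * sgn (pl p.2) S)).card : ℝ)
        ≤ 2 ^ (K * (n + 1)) * (((univ : Finset (Finset (Fin n))).filter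
        (fun J => ∀ q, (∃ j ∈ J, pl p.1 q = some j) ↔ ∃ j ∈ J, pl p.2 q = some j)).card : ℝ) := by
        exact_mod_cast this
      rw [card_filter (p := fun J => ∀ q, (∃ j ∈ J, pl p.1 q = some j) ↔ ∃ j ∈ J, pl p.2 q = some j)] at h3
      push_cast at h3
      rw [div_mul_eq_mul_div, le_div_iff₀ (by positivity)]
      linarith
    rw [h1]
    refine le_trans (sum_le_sum fun p _ => h2 p) ?_
    rw [← mul_sum]
    apply mul_le_mul_of_nonneg_left _ (by positivity)
    rw [sum_comm]
    unfold kap
    rw [mul_sum]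
    apply sum_le_sum
    intro J _
    have h4 := pairs_J n K J
    have h5 : ((((univ : Finset ((Fin K → Equiv.Perm (Option (Fin n))) × (Fin K → Equiv.Perm (Option (Fin n))))).filter
      (fun p => ∀ q, (∃ j ∈ J, pl p.1 q = some j) ↔ ∃ j ∈ J, pl p.2 q = some j)).card : ℝ))
      * (((n + 1).choose J.card : ℕ) : ℝ) ^ K ≤ A ^ 2 := by
      rw [hA]
      exact_mod_cast h4
    rw [card_filter] at h5
    push_cast at h5
    have hJ : J.card ≤ n + 1 := by
      have := card_le_univ J
      rw [Fintype.card_fin] at this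
      omega
    have hch : (0 : ℝ) < (((n + 1).choose J.card : ℕ) : ℝ) := by
      exact_mod_cast Nat.choose_pos hJ
    rw [one_div, inv_pow, ← div_eq_mul_inv, le_div_iff₀ (by positivity)]
    exact h5
  -- Cauchy-Schwarz
  have hCS : (∑ z, N z) ^ 2 ≤ (reached u).card * ∑ z, N z ^ 2 := by
    have h1 : ∑ z, N z = ∑ z ∈ reached u, N z := by
      symm
      apply sum_subset (subset_univ _)
      intro z _ hz
      simp only [hN]
      rw [Nat.cast_eq_zero, card_eq_zero, filter_eq_empty_iff]
      intro φ _ hφ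
      apply hz
      unfold reached
      rw [mem_filter]
      exact ⟨mem_univ _, φ, hφ⟩
    rw [h1]
    refine le_trans sq_sum_le_card_mul_sum_sq ?_
    apply mul_le_mul_of_nonneg_left _ (by positivity)
    exact sum_le_sum_of_subset_of_nonneg (subset_univ _) fun z _ _ => sq_nonneg _
  rw [hsum] at hCS
  have h6 : (2 ^ (K * (n + 1)) * A) ^ 2 ≤ (reached u).card * (2 ^ (K * (n + 1)) / 2 ^ n * (A ^ 2 * kap n K)) :=
    hCS.trans (mul_le_mul_of_nonneg_left hsq (by positivity))
  have h7 : (0 : ℝ) < 2 ^ (K * (n + 1)) / 2 ^ n * A ^ 2 := by positivity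
  have h8 : (2 ^ (K * (n + 1)) * A) ^ 2 = (2 ^ (K * (n + 1)) / 2 ^ n * A ^ 2) * (2 ^ (K * (n + 1)) * 2 ^ n) := by
    field_simp
  rw [h8] at h6
  have h9 : (2 ^ (K * (n + 1)) / 2 ^ n * A ^ 2) * (2 ^ (K * (n + 1)) * 2 ^ n)
      ≤ (2 ^ (K * (n + 1)) / 2 ^ n * A ^ 2) * ((reached u).card * kap n K) := by
    calc _ ≤ _ := h6
      _ = _ := by ring
  exact le_of_mul_le_mul_left h9 h7

end Pool.Agent.N318.BC
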