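import Pool.Agent.N318.BC.C

/-!
Bounds for the constant.
-/

set_option autoImplicit false

namespace Pool.Agent.N318.BC

open Finset

theorem kap_eq (n K : ℕ) : kap n K = ∑ s ∈ range (n + 1),
    (n.choose s : ℝ) * (1 / (((n + 1).choose s : ℕ) : ℝ)) ^ K := by
  unfold kap
  have h := Finset.sum_powerset_apply_card (x := (univ : Finset (Fin n)))
    (fun s => (1 / (((n + 1).choose s : ℕ) : ℝ)) ^ K)
  rw [card_univ, Fintype.card_fin] at h
  have h2 : ∑ J : Finset (Fin n), (1 / (((n + 1).choose J.card : ℕ) : ℝ)) ^ K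
      = ∑ J ∈ (univ : Finset (Fin n)).powerset, (1 / (((n + 1).choose J.card : ℕ) : ℝ)) ^ K := rfl
  rw [h2, h]
  apply sum_congr rfl
  intro s _
  rw [nsmul_eq_mul]

theorem kap_one (n : ℕ) : kap n 1 = (n + 2) / 2 := by
  rw [kap_eq]
  have h : ∀ s ∈ range (n + 1), (n.choose s : ℝ) * (1 / (((n + 1).choose s : ℕ) : ℝ)) ^ 1
      = 1 - (s : ℝ) / (n + 1) := by
    intro s hs
    rw [mem_range] at hs
    have h3 : (n + 1 - s) * (n + 1).choose s = (n + 1) * n.choose s := by
      have := Nat.choose_mul_succ_eq n s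
      rw [mul_comm, ← this, mul_comm]
    have h4 : ((n : ℝ) + 1 - s) * ((n + 1).choose s : ℕ) = (n + 1) * (n.choose s : ℕ) := by
      have h5 : (((n + 1 - s : ℕ) : ℝ)) = (n : ℝ) + 1 - s := by
        rw [Nat.cast_sub (by omega)]
        push_cast
        ring
      rw [← h5]
      exact_mod_cast h3
    have hpos : (0 : ℝ) < ((n + 1).choose s : ℕ) := by
      exact_mod_cast Nat.choose_pos (by omega)
    have hn : (0 : ℝ) < (n : ℝ) + 1 := by positivity
    field_simp
    linarith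
  rw [sum_congr rfl h, sum_sub_distrib, sum_const, card_range, nsmul_eq_mul, ← sum_div]
  have h6 : (∑ s ∈ range (n + 1), (s : ℝ)) = (n : ℝ) * (n + 1) / 2 := by
    have := Finset.sum_range_id_mul_two (n + 1)
    have h7 : (∑ s ∈ range (n + 1), (s : ℝ)) * 2 = (n + 1) * n := by
      have h8 : (((∑ s ∈ range (n + 1), s : ℕ) * 2 : ℕ) : ℝ) = (((n + 1) * (n + 1 - 1) : ℕ) : ℝ) := by
        rw [this]
      push_cast at h8
      simpa using h8
    linarith
  rw [h6]
  have hn : (0 : ℝ) < (n : ℝ) + 1 := by positivity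
  field_simp
  push_cast
  ring

theorem choose_two_le : ∀ m s : ℕ, 2 ≤ s → s + 2 ≤ m → m.choose 2 ≤ m.choose s := by
  intro m
  induction m with
  | zero =>
    intro s _ h
    omega
  | succ m ih =>
    intro s h2 hs
    rcases Nat.eq_or_lt_of_le h2 with h | h
    · rw [← h]
    rcases Nat.eq_or_lt_of_le hs with h' | h'
    · have : s = m + 1 - 2 := by omega
      rw [this, Nat.choose_symm (by omega)]
    · obtain ⟨s', rfl⟩ : ∃ s', s = s' + 1 := ⟨s - 1, by omega⟩
      have h3 := ih s' (by omega) (by omega)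
      have h4 := ih (s' + 1) (by omega) (by omega)
      rw [Nat.choose_succ_succ' m 1, Nat.choose_succ_succ' m s', Nat.choose_one_right]
      rw [show (1 + 1 : ℕ) = 2 from rfl]
      have h5 : m ≤ m.choose 2 := by
        rw [Nat.choose_two_right]
        have : m * 2 ≤ m * (m - 1) := Nat.mul_le_mul_left _ (by omega)
        omega
      omega

theorem inv_choose_le (n s : ℕ) (h1 : 1 ≤ s) (hs : s ≤ n) :
    (1 : ℝ) / (((n + 1).choose s : ℕ) : ℝ) ≤ 2 / (n * (n + 1)) + (if s = 1 then (1 : ℝ) / (n + 1) else 0)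
      + (if s = n then (1 : ℝ) / (n + 1) else 0) := by
  have hn : (1 : ℝ) ≤ n := by exact_mod_cast (h1.trans hs)
  have hp : (0 : ℝ) ≤ 2 / (n * (n + 1)) := by positivity
  have hq : (0 : ℝ) ≤ 1 / ((n : ℝ) + 1) := by positivity
  have hq' : (0 : ℝ) ≤ (if s = n then (1 : ℝ) / (n + 1) else 0) := by
    split_ifs
    · exact hq
    · exact le_refl _
  have hq'' : (0 : ℝ) ≤ (if s = 1 then (1 : ℝ) / (n + 1) else 0) := by
    split_ifs
    · exact hq
    · exact le_refl _
  by_cases e1 : s = 1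
  · rw [if_pos e1, e1, Nat.choose_one_right]
    push_cast
    rw [e1] at hq'
    linarith
  by_cases e2 : s = n
  · rw [if_pos e2, e2]
    have : (n + 1).choose n = n + 1 := Nat.choose_succ_self_right n
    rw [this]
    push_cast
    rw [e2] at hq''
    linarith
  have h3 := choose_two_le (n + 1) s (by omega) (by omega)
  have h4 : (((n + 1).choose 2 : ℕ) : ℝ) = n * (n + 1) / 2 := by
    rw [Nat.cast_choose_two]
    push_cast
    ring
  have h5 : (n * (n + 1) / 2 : ℝ) ≤ (((n + 1).choose s : ℕ) : ℝ) := by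
    rw [← h4]
    exact_mod_cast h3
  have h6 : (1 : ℝ) / (((n + 1).choose s : ℕ) : ℝ) ≤ 1 / (n * (n + 1) / 2) :=
    one_div_le_one_div_of_le (by positivity) h5
  have h7 : (1 : ℝ) / (n * (n + 1) / 2) = 2 / (n * (n + 1)) := by
    rw [one_div_div]
  linarith

theorem sum_inv_choose (n : ℕ) (hn : 1 ≤ n) :
    ∑ s ∈ Icc 1 n, (1 : ℝ) / (((n + 1).choose s : ℕ) : ℝ) ≤ 4 / (n + 1) := by
  have hn' : (1 : ℝ) ≤ n := by exact_mod_cast hn
  refine le_trans (sum_le_sum fun s hs => inv_choose_le n s (mem_Icc.1 hs).1 (mem_Icc.1 hs).2) ?_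
  rw [sum_add_distrib, sum_add_distrib, sum_const, Nat.card_Icc, nsmul_eq_mul, sum_ite_eq',
    sum_ite_eq', if_pos (mem_Icc.2 ⟨le_refl _, hn⟩), if_pos (mem_Icc.2 ⟨hn, le_refl _⟩)]
  rw [Nat.add_sub_cancel]
  apply le_of_eq
  field_simp
  ring

theorem kap_le (n K : ℕ) (hn : 1 ≤ n) (hK : 2 ≤ K) : kap n K ≤ 1 + 4 / ((n : ℝ) + 1) ^ (K - 1) := by
  rw [kap_eq]
  have h1 : range (n + 1) = insert 0 (Icc 1 n) := by
    ext s
    simp only [mem_range, mem_insert, mem_Icc]
    omega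
  rw [h1, sum_insert (by simp)]
  have h0 : (n.choose 0 : ℝ) * (1 / (((n + 1).choose 0 : ℕ) : ℝ)) ^ K = 1 := by simp
  rw [h0]
  have h2 : ∀ s ∈ Icc 1 n, (n.choose s : ℝ) * (1 / (((n + 1).choose s : ℕ) : ℝ)) ^ K
      ≤ (1 / ((n : ℝ) + 1)) ^ (K - 2) * (1 / (((n + 1).choose s : ℕ) : ℝ)) := by
    intro s hs
    rw [mem_Icc] at hs
    have hpos : (0 : ℝ) < ((n + 1).choose s : ℕ) := by
      exact_mod_cast Nat.choose_pos (by omega)
    have h3 : (n.choose s : ℝ) ≤ ((n + 1).choose s : ℕ) := by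
      exact_mod_cast Nat.choose_le_succ n s
    have h4 : ((n : ℝ) + 1) ≤ ((n + 1).choose s : ℕ) := by
      by_cases e1 : s = 1
      · rw [e1, Nat.choose_one_right]
        push_cast
        exact le_refl _
      by_cases e2 : s = n
      · rw [e2, Nat.choose_succ_self_right]
        push_cast
        exact le_refl _
      have h5 := choose_two_le (n + 1) s (by omega) (by omega)
      have h6 : n + 1 ≤ (n + 1).choose 2 := by
        rw [Nat.choose_two_right]
        have : (n + 1) * 2 ≤ (n + 1) * (n + 1 - 1) := Nat.mul_le_mul_left _ (by omega)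
        omega
      exact_mod_cast h6.trans h5
    have h7 : (1 : ℝ) / ((n + 1).choose s : ℕ) ≤ 1 / ((n : ℝ) + 1) :=
      one_div_le_one_div_of_le (by positivity) h4
    obtain ⟨k, rfl⟩ : ∃ k, K = k + 2 := ⟨K - 2, by omega⟩
    rw [Nat.add_sub_cancel, pow_add, pow_two]
    have h8 : (n.choose s : ℝ) * (1 / (((n + 1).choose s : ℕ) : ℝ)) ≤ 1 := by
      rw [mul_one_div, div_le_one hpos]
      exact h3
    have h9 : (1 / (((n + 1).choose s : ℕ) : ℝ)) ^ k ≤ (1 / ((n : ℝ) + 1)) ^ k :=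
      pow_le_pow_left₀ (by positivity) h7 k
    calc (n.choose s : ℝ) * ((1 / (((n + 1).choose s : ℕ) : ℝ)) ^ k *
          ((1 / (((n + 1).choose s : ℕ) : ℝ)) * (1 / (((n + 1).choose s : ℕ) : ℝ))))
        = ((n.choose s : ℝ) * (1 / (((n + 1).choose s : ℕ) : ℝ))) *
          ((1 / (((n + 1).choose s : ℕ) : ℝ)) ^ k * (1 / (((n + 1).choose s : ℕ) : ℝ))) := by ring
      _ ≤ 1 * ((1 / ((n : ℝ) + 1)) ^ k * (1 / (((n + 1).choose s : ℕ) : ℝ))) := by
          apply mul_le_mul h8 _ (by positivity) zero_le_one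
          exact mul_le_mul_of_nonneg_right h9 (by positivity)
      _ = _ := one_mul _
  have h3 : ∑ s ∈ Icc 1 n, (n.choose s : ℝ) * (1 / (((n + 1).choose s : ℕ) : ℝ)) ^ K
      ≤ (1 / ((n : ℝ) + 1)) ^ (K - 2) * (4 / (n + 1)) := by
    refine le_trans (sum_le_sum h2) ?_
    rw [← mul_sum]
    exact mul_le_mul_of_nonneg_left (sum_inv_choose n hn) (by positivity)
  have h4 : (1 / ((n : ℝ) + 1)) ^ (K - 2) * (4 / (n + 1)) = 4 / ((n : ℝ) + 1) ^ (K - 1) := by
    obtain ⟨k, rfl⟩ : ∃ k, K = k + 2 := ⟨K - 2, by omega⟩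
    rw [Nat.add_sub_cancel, show k + 2 - 1 = k + 1 by omega, one_div, inv_pow, pow_succ]
    field_simp
  rw [h4] at h3
  linarith

end Pool.Agent.N318.BC
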