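import Pool.Agent.N318.BC.D

/-!
Residue classes realising the placements, and the most popular word in a class.
-/

set_option autoImplicit false

namespace Pool.Agent.N318.BC

open Finset

/-- `g` with its sign changed at the primes of `S`: `g m` times `(-1) ^ (v_q m)` for all `q ∈ S` -/
def twist (g : ℕ → ℤˣ) (S : Finset ℕ) (m : ℕ) : ℤˣ := g m * ∏ q ∈ S, (-1) ^ padicValNat q m

/-- the number of `m < x` with `f (m + j + 1) = t j` for all `j < n` -/
def cnt {n : ℕ} (f : ℕ → ℤˣ) (t : Fin n → ℤˣ) (x : ℕ) : ℕ :=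
  ((range x).filter (fun m => ∀ j : Fin n, f (m + j + 1) = t j)).card

/-- the residue modulo `q ^ 2` -/
def res {n : ℕ} (q : ℕ) (o : Option (Fin n)) : ℕ :=
  match o with
  | none => 0
  | some j => q - j - 1

theorem val_res {n : ℕ} (q : ℕ) (hq : q.Prime) (hn : n < q) (o : Option (Fin n)) (m : ℕ)
    (hm : m ≡ res q o [MOD q ^ 2]) (j : Fin n) :
    padicValNat q (m + j + 1) = if o = some j then 1 else 0 := by
  haveI := Fact.mk hq
  have hj := j.2
  have hm' : m ≡ res q o [MOD q] := hm.of_dvd (dvd_pow_self q two_ne_zero)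
  cases o with
  | none =>
    rw [if_neg (by simp)]
    apply padicValNat.eq_zero_of_not_dvd
    intro hd
    have h1 : m ≡ 0 [MOD q] := hm'
    have h2 : q ∣ m := (Nat.modEq_zero_iff_dvd).1 h1
    have h3 : q ∣ (j : ℕ) + 1 := (Nat.dvd_add_right h2).1 hd
    have := Nat.le_of_dvd (by omega) h3
    omega
  | some i =>
    have hi := i.2
    by_cases e : i = j
    · rw [if_pos (by rw [e])]
      subst e
      have e2 : res q (some i) + (i + 1) = q := by
        unfold res
        simp only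
        omega
      have h1 : m + i + 1 ≡ q [MOD q ^ 2] := by
        have := hm.add_right (i + 1)
        rw [e2] at this
        exact this
      have h2 : q ∣ m + i + 1 := by
        have := h1.of_dvd (dvd_pow_self q two_ne_zero)
        exact (Nat.modEq_zero_iff_dvd).1 (this.trans ((Nat.modEq_zero_iff_dvd).2 (dvd_refl q)))
      have h3 : ¬ q ^ 2 ∣ m + i + 1 := by
        intro hd
        have h4 : q ≡ 0 [MOD q ^ 2] := h1.symm.trans ((Nat.modEq_zero_iff_dvd).2 hd)
        have h5 := Nat.le_of_dvd hq.pos ((Nat.modEq_zero_iff_dvd).1 h4)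
        nlinarith [hq.two_le]
      have h0 : m + i + 1 ≠ 0 := by omega
      have h6 : 1 ≤ padicValNat q (m + i + 1) :=
        (padicValNat_dvd_iff_le h0).1 (by rw [pow_one]; exact h2)
      have h7 : ¬ 2 ≤ padicValNat q (m + i + 1) := fun h => h3 ((padicValNat_dvd_iff_le h0).2 h)
      omega
    · rw [if_neg (fun h => e (Option.some.inj h))]
      apply padicValNat.eq_zero_of_not_dvd
      intro hd
      have e2 : res q (some i) + (i + 1) = q := by
        unfold res
        simp only
        omega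
      have h1 : m + (i + 1) ≡ q [MOD q] := by
        have := hm'.add_right (i + 1)
        rw [e2] at this
        exact this
      have h2 : q ∣ m + (i + 1) :=
        (Nat.modEq_zero_iff_dvd).1 (h1.trans ((Nat.modEq_zero_iff_dvd).2 (dvd_refl q)))
      have hne : (i : ℕ) ≠ j := fun h => e (Fin.ext h)
      rcases Nat.lt_or_gt_of_ne hne with h | h
      · have h3 : q ∣ ((m + j + 1) - (m + (i + 1))) := Nat.dvd_sub hd h2
        have h4 : (m + j + 1) - (m + (i + 1)) = j - i := by omega
        rw [h4] at h3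
        have := Nat.le_of_dvd (by omega) h3
        omega
      · have h3 : q ∣ ((m + (i + 1)) - (m + j + 1)) := Nat.dvd_sub h2 hd
        have h4 : (m + (i + 1)) - (m + j + 1) = i - j := by omega
        rw [h4] at h3
        have := Nat.le_of_dvd (by omega) h3
        omega

theorem class_count (W a x : ℕ) (hW : 0 < W) (ha : a < W) (P : ℕ → Prop) [DecidablePred P] :
    ((range (x / W)).filter (fun k => P (a + W * k))).card ≤ ((range x).filter P).card := by
  refine card_le_card_of_injOn (fun k => a + W * k) ?_ ?_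
  · intro k hk
    simp only [coe_filter, mem_range, Set.mem_setOf_eq] at hk ⊢
    refine ⟨?_, hk.2⟩
    have h1 : W * (k + 1) ≤ W * (x / W) := Nat.mul_le_mul_left _ hk.1
    have h2 : W * (x / W) ≤ x := Nat.mul_div_le x W
    have h3 : W * (k + 1) = W * k + W := by ring
    omega
  · intro k _ l _ h
    simp only at h
    have : W * k = W * l := by omega
    exact Nat.eq_of_mul_eq_mul_left hW this

theorem popular {n : ℕ} (X : ℕ) (pat : ℕ → (Fin n → ℤˣ)) :
    ∃ u, X ≤ 2 ^ n * ((range X).filter (fun k => pat k = u)).card := by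
  classical
  by_contra h
  push Not at h
  have h1 : X = ∑ u : Fin n → ℤˣ, ((range X).filter (fun k => pat k = u)).card := by
    conv_lhs => rw [← card_range X]
    rw [← card_eq_sum_card_fiberwise (f := pat) (t := univ)]
    intro _ _
    exact mem_coe.2 (mem_univ _)
  have h2 : 2 ^ n * X < 2 ^ n * X := by
    calc 2 ^ n * X = ∑ u : Fin n → ℤˣ, 2 ^ n * ((range X).filter (fun k => pat k = u)).card := by
          rw [← mul_sum, ← h1]
      _ < ∑ _u : Fin n → ℤˣ, X := sum_lt_sum_of_nonempty ⟨1, mem_univ _⟩ fun u _ => h u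
      _ = 2 ^ n * X := by
          rw [sum_const, card_univ, Fintype.card_fun, Fintype.card_fin, Fintype.card_units_int,
            smul_eq_mul]
  exact lt_irrefl _ h2

variable {n : ℕ} {ι : Type*} [Fintype ι] [DecidableEq ι]

theorem crt (e : ι ↪ ℕ) (hp : ∀ i, (e i).Prime) (φ : ι → Option (Fin n)) :
    ∃ a < ∏ i, e i ^ 2, ∀ i, a ≡ res (e i) (φ i) [MOD e i ^ 2] := by
  have hs : ∀ i ∈ (univ : Finset ι), (fun i => e i ^ 2) i ≠ 0 := fun i _ =>
    pow_ne_zero 2 (hp i).ne_zero
  have hc : Set.Pairwise ((univ : Finset ι) : Set ι) (Function.onFun Nat.Coprime (fun i => e i ^ 2)) := by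
    intro i _ j _ hij
    exact Nat.Coprime.pow 2 2 ((Nat.coprime_primes (hp i) (hp j)).2 (fun h => hij (e.injective h)))
  refine ⟨(Nat.chineseRemainderOfFinset (fun i => res (e i) (φ i)) (fun i => e i ^ 2) univ hs hc : ℕ),
    Nat.chineseRemainderOfFinset_lt_prod _ _ hs hc, fun i => ?_⟩
  exact (Nat.chineseRemainderOfFinset (fun i => res (e i) (φ i)) (fun i => e i ^ 2) univ hs hc).2 i
    (mem_univ i)

theorem link (g : ℕ → ℤˣ) (e : ι ↪ ℕ) (hp : ∀ i, (e i).Prime) (hn : ∀ i, n < e i)
    (φ : ι → Option (Fin n)) (a : ℕ) (ha : ∀ i, a ≡ res (e i) (φ i) [MOD e i ^ 2]) (S : Finset ι)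
    (k : ℕ) (j : Fin n) :
    twist g (S.map e) (a + (∏ i, e i ^ 2) * k + j + 1)
      = g (a + (∏ i, e i ^ 2) * k + j + 1) * sgn φ S j := by
  unfold twist sgn
  rw [prod_map]
  congr 1
  apply prod_congr rfl
  intro i _
  have h1 : a + (∏ i, e i ^ 2) * k ≡ res (e i) (φ i) [MOD e i ^ 2] := by
    have h2 : (∏ i, e i ^ 2) * k ≡ 0 [MOD e i ^ 2] :=
      (Nat.modEq_zero_iff_dvd).2 ((dvd_prod_of_mem _ (mem_univ i)).mul_right k)
    exact (ha i).add h2
  rw [val_res (e i) (hp i) (hn i) (φ i) _ h1 j]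
  split_ifs <;> simp

theorem exists_u (g : ℕ → ℤˣ) (e : ι ↪ ℕ) (hp : ∀ i, (e i).Prime) (hn : ∀ i, n < e i)
    (x : ℕ) (φ : ι → Option (Fin n)) :
    ∃ u : Fin n → ℤˣ, ∀ S : Finset ι,
      x / (∏ i, e i ^ 2) ≤ 2 ^ n * cnt (twist g (S.map e)) (u * sgn φ S) x := by
  obtain ⟨a, ha, hc⟩ := crt e hp φ
  obtain ⟨u, hu⟩ := popular (x / (∏ i, e i ^ 2)) (fun k j => g (a + (∏ i, e i ^ 2) * k + j + 1))
  refine ⟨u, fun S => hu.trans (Nat.mul_le_mul_left _ ?_)⟩
  unfold cnt
  refine le_trans (card_le_card ?_) (class_count (∏ i, e i ^ 2) a x (by omega) ha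
    (fun m => ∀ j : Fin n, twist g (S.map e) (m + j + 1) = (u * sgn φ S) j))
  intro k hk
  rw [mem_filter] at hk ⊢
  refine ⟨hk.1, fun j => ?_⟩
  rw [link g e hp hn φ a hc S k j, Pi.mul_apply, ← hk.2]

end Pool.Agent.N318.BC
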