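import Pool.Agent.N318.BC.E

/-!
Assembly: how many pairs (set of primes, word) are frequent.
-/

set_option autoImplicit false

namespace Pool.Agent.N318.BC

open Finset

/-- for infinitely many `x` the word `t` starts at least `⌊x / W⌋ / 2 ^ n` times below `x` -/
def Freq {n : ℕ} (f : ℕ → ℤˣ) (t : Fin n → ℤˣ) (W : ℕ) : Prop :=
  ∀ N : ℕ, ∃ x, N ≤ x ∧ x / W ≤ 2 ^ n * cnt f t x

variable {n K : ℕ}

/-- the pairs (subset of `Q`, word) -/
def prs (n : ℕ) (Q : Finset ℕ) : Finset (Finset ℕ × (Fin n → ℤˣ)) := Q.powerset ×ˢ univ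

theorem card_prs (n : ℕ) (Q : Finset ℕ) : (prs n Q).card = 2 ^ Q.card * 2 ^ n := by
  unfold prs
  rw [card_product, card_powerset, card_univ, Fintype.card_fun, Fintype.card_fin,
    Fintype.card_units_int]

theorem good_ge (Q : Finset ℕ) (hQ : Q.card = K * (n + 1)) (hq : ∀ q ∈ Q, q.Prime ∧ n < q)
    (g : ℕ → ℤˣ) (x : ℕ) :
    (2 : ℝ) ^ (K * (n + 1)) * 2 ^ n ≤ (((prs n Q).filter (fun p =>
      x / (∏ q ∈ Q, q ^ 2) ≤ 2 ^ n * cnt (twist g p.1) p.2 x)).card : ℝ) * kap n K := by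
  classical
  have hcard : Fintype.card (Fin K × Option (Fin n)) = Fintype.card {q // q ∈ Q} := by
    rw [Fintype.card_prod, Fintype.card_fin, Fintype.card_option, Fintype.card_fin,
      Fintype.card_coe, hQ]
  obtain ⟨e0⟩ := Fintype.card_eq.1 hcard
  let e : (Fin K × Option (Fin n)) ↪ ℕ := e0.toEmbedding.trans (Function.Embedding.subtype _)
  have he : ∀ i, e i = (e0 i : ℕ) := fun i => rfl
  have hmem : ∀ i, e i ∈ Q := fun i => by rw [he]; exact (e0 i).2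
  have hprod : ∏ i, e i ^ 2 = ∏ q ∈ Q, q ^ 2 := by
    rw [← prod_coe_sort Q (fun q => q ^ 2)]
    exact Fintype.prod_equiv e0 _ _ (fun i => rfl)
  have hu : ∀ φ : Fin K → Equiv.Perm (Option (Fin n)), ∃ u : Fin n → ℤˣ,
      ∀ S : Finset (Fin K × Option (Fin n)),
      x / (∏ i, e i ^ 2) ≤ 2 ^ n * cnt (twist g (S.map e)) (u * sgn (pl φ) S) x := fun φ =>
    exists_u g e (fun i => (hq _ (hmem i)).1) (fun i => (hq _ (hmem i)).2) x (pl φ)
  choose u hu using hu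
  have h2 := second n K u
  have hk : 0 ≤ kap n K := by
    unfold kap
    exact sum_nonneg fun _ _ => by positivity
  refine h2.trans (mul_le_mul_of_nonneg_right ?_ hk)
  rw [Nat.cast_le]
  refine card_le_card_of_injOn (fun z => (z.1.map e, z.2)) ?_ ?_
  · intro z hz
    unfold reached at hz
    rw [mem_coe, mem_filter] at hz
    obtain ⟨-, φ, hφ⟩ := hz
    rw [mem_coe, mem_filter]
    refine ⟨?_, ?_⟩
    · unfold prs
      rw [mem_product, mem_powerset]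
      refine ⟨?_, mem_univ _⟩
      intro q hq'
      simp only [mem_map] at hq'
      obtain ⟨i, -, rfl⟩ := hq'
      exact hmem i
    · have := hu φ z.1
      rw [hprod, hφ] at this
      exact this
  · rintro ⟨S, t⟩ _ ⟨S', t'⟩ _ h
    simp only [Prod.mk.injEq, map_inj] at h
    rw [h.1, h.2]

/-- the passage to infinitely many `x` -/
theorem good_freq (Q : Finset ℕ) (hQ : Q.card = K * (n + 1)) (hq : ∀ q ∈ Q, q.Prime ∧ n < q)
    (g : ℕ → ℤˣ) [DecidablePred fun p : Finset ℕ × (Fin n → ℤˣ) =>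
      Freq (twist g p.1) p.2 (∏ q ∈ Q, q ^ 2)] :
    (2 : ℝ) ^ (K * (n + 1)) * 2 ^ n ≤ (((prs n Q).filter (fun p =>
      Freq (twist g p.1) p.2 (∏ q ∈ Q, q ^ 2))).card : ℝ) * kap n K := by
  classical
  have h1 : ∀ p : Finset ℕ × (Fin n → ℤˣ), ∃ N : ℕ, ¬ Freq (twist g p.1) p.2 (∏ q ∈ Q, q ^ 2) →
      ∀ x, N ≤ x → ¬ x / (∏ q ∈ Q, q ^ 2) ≤ 2 ^ n * cnt (twist g p.1) p.2 x := by
    intro p
    by_cases h : Freq (twist g p.1) p.2 (∏ q ∈ Q, q ^ 2)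
    · exact ⟨0, fun h' => absurd h h'⟩
    · unfold Freq at h
      push Not at h
      obtain ⟨N, hN⟩ := h
      exact ⟨N, fun _ x hx => not_le.2 (hN x hx)⟩
  choose N hN using h1
  have hk : 0 ≤ kap n K := by
    unfold kap
    exact sum_nonneg fun _ _ => by positivity
  refine (good_ge Q hQ hq g (∑ p ∈ prs n Q, N p)).trans (mul_le_mul_of_nonneg_right ?_ hk)
  rw [Nat.cast_le]
  apply card_le_card
  intro p hp
  rw [mem_filter] at hp ⊢
  refine ⟨hp.1, ?_⟩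
  by_contra h
  exact hN p h _ (single_le_sum (f := N) (fun _ _ => Nat.zero_le _) hp.1) hp.2

/-- from the second moment bound to the number of exceptions -/
theorem exc_le (hn : 1 ≤ n) (hK : 2 ≤ K) (Q : Finset ℕ) (hQ : Q.card = K * (n + 1))
    (P : Finset ℕ × (Fin n → ℤˣ) → Prop) [DecidablePred P]
    (h : (2 : ℝ) ^ (K * (n + 1)) * 2 ^ n ≤ (((prs n Q).filter P).card : ℝ) * kap n K) :
    ((prs n Q).filter (fun p => ¬ P p)).card * (n + 1) ^ (K - 1) ≤ 4 * (2 ^ Q.card * 2 ^ n) := by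
  classical
  have h1 : (((prs n Q).filter P).card : ℝ) + ((prs n Q).filter (fun p => ¬ P p)).card
      = 2 ^ (K * (n + 1)) * 2 ^ n := by
    rw [← Nat.cast_add, card_filter_add_card_filter_not, card_prs, hQ]
    push_cast
    rfl
  have h2 := kap_le n K hn hK
  set T : ℝ := 2 ^ (K * (n + 1)) * 2 ^ n with hT
  set G : ℝ := (((prs n Q).filter P).card : ℝ) with hG
  set B : ℝ := (((prs n Q).filter (fun p => ¬ P p)).card : ℝ) with hB
  have hG0 : 0 ≤ G := by rw [hG]; positivity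
  have hGT : G ≤ T := by
    have : 0 ≤ B := by rw [hB]; positivity
    linarith
  have hpos : (0 : ℝ) < ((n : ℝ) + 1) ^ (K - 1) := by positivity
  have h3 : T ≤ G * (1 + 4 / ((n : ℝ) + 1) ^ (K - 1)) := h.trans (mul_le_mul_of_nonneg_left h2 hG0)
  have h4 : B ≤ T * 4 / ((n : ℝ) + 1) ^ (K - 1) := by
    have h5 : G * (1 + 4 / ((n : ℝ) + 1) ^ (K - 1)) = G + G * (4 / ((n : ℝ) + 1) ^ (K - 1)) := by
      ring
    have h6 : G * (4 / ((n : ℝ) + 1) ^ (K - 1)) ≤ T * (4 / ((n : ℝ) + 1) ^ (K - 1)) :=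
      mul_le_mul_of_nonneg_right hGT (by positivity)
    have h7 : T * (4 / ((n : ℝ) + 1) ^ (K - 1)) = T * 4 / ((n : ℝ) + 1) ^ (K - 1) := by
      ring
    linarith
  rw [le_div_iff₀ hpos] at h4
  have h5 : ((((prs n Q).filter (fun p => ¬ P p)).card * (n + 1) ^ (K - 1) : ℕ) : ℝ)
      ≤ ((4 * (2 ^ Q.card * 2 ^ n) : ℕ) : ℝ) := by
    rw [hQ]
    push_cast
    linarith
  exact_mod_cast h5

theorem main_exc (hn : 1 ≤ n) (hK : 2 ≤ K) (Q : Finset ℕ) (hQ : Q.card = K * (n + 1))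
    (hq : ∀ q ∈ Q, q.Prime ∧ n < q) (g : ℕ → ℤˣ) (x : ℕ) :
    ((prs n Q).filter (fun p => 2 ^ n * cnt (twist g p.1) p.2 x < x / ∏ q ∈ Q, q ^ 2)).card
      * (n + 1) ^ (K - 1) ≤ 4 * (2 ^ Q.card * 2 ^ n) := by
  classical
  have := exc_le hn hK Q hQ _ (good_ge Q hQ hq g x)
  simpa only [not_le] using this

theorem main_freq (hn : 1 ≤ n) (hK : 2 ≤ K) (Q : Finset ℕ) (hQ : Q.card = K * (n + 1))
    (hq : ∀ q ∈ Q, q.Prime ∧ n < q) (g : ℕ → ℤˣ)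
    [DecidablePred fun p : Finset ℕ × (Fin n → ℤˣ) =>
      Freq (twist g p.1) p.2 (∏ q ∈ Q, q ^ 2)]  :
    ((prs n Q).filter (fun p => ¬ Freq (twist g p.1) p.2 (∏ q ∈ Q, q ^ 2))).card
      * (n + 1) ^ (K - 1) ≤ 4 * (2 ^ Q.card * 2 ^ n) :=
  exc_le hn hK Q hQ _ (good_freq Q hQ hq g)

theorem main_sets (hn : 1 ≤ n) (hK : 2 ≤ K) (Q : Finset ℕ) (hQ : Q.card = K * (n + 1))
    (hq : ∀ q ∈ Q, q.Prime ∧ n < q) (g : ℕ → ℤˣ)
    [DecidablePred fun S : Finset ℕ => ∃ t : Fin n → ℤˣ, ¬ Freq (twist g S) t (∏ q ∈ Q, q ^ 2)] :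
    (Q.powerset.filter (fun S => ∃ t : Fin n → ℤˣ, ¬ Freq (twist g S) t (∏ q ∈ Q, q ^ 2))).card
      * (n + 1) ^ (K - 1) ≤ 4 * (2 ^ Q.card * 2 ^ n) := by
  classical
  refine le_trans (Nat.mul_le_mul_right _ ?_) (main_freq hn hK Q hQ hq g)
  have hex : ∀ S : Finset ℕ, ∃ t : Fin n → ℤˣ, (∃ t : Fin n → ℤˣ, ¬ Freq (twist g S) t (∏ q ∈ Q, q ^ 2)) →
      ¬ Freq (twist g S) t (∏ q ∈ Q, q ^ 2) := by
    intro S
    by_cases h : ∃ t : Fin n → ℤˣ, ¬ Freq (twist g S) t (∏ q ∈ Q, q ^ 2)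
    · obtain ⟨t, ht⟩ := h
      exact ⟨t, fun _ => ht⟩
    · exact ⟨1, fun h' => absurd h' h⟩
  choose τ hτ using hex
  refine card_le_card_of_injOn (fun S => (S, τ S)) ?_ ?_
  · intro S hS
    rw [mem_coe, mem_filter] at hS
    rw [mem_coe, mem_filter]
    refine ⟨?_, hτ S hS.2⟩
    unfold prs
    rw [mem_product]
    exact ⟨hS.1, mem_univ _⟩
  · intro S _ S' _ h
    exact (Prod.mk.inj h).1

theorem one_le (Q : Finset ℕ) (hQ : Q.card = n + 1)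
    (P : Finset ℕ × (Fin n → ℤˣ) → Prop) [DecidablePred P]
    (h : (2 : ℝ) ^ (1 * (n + 1)) * 2 ^ n ≤ (((prs n Q).filter P).card : ℝ) * kap n 1) :
    2 ^ Q.card * 2 ^ (n + 1) ≤ (n + 2) * ((prs n Q).filter P).card := by
  rw [kap_one, one_mul] at h
  have h5 : ((2 ^ Q.card * 2 ^ (n + 1) : ℕ) : ℝ) ≤ (((n + 2) * ((prs n Q).filter P).card : ℕ) : ℝ) := by
    rw [hQ]
    push_cast
    rw [pow_succ (2 : ℝ) n] at h ⊢
    linarith
  exact_mod_cast h5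

theorem main_one (Q : Finset ℕ) (hQ : Q.card = n + 1)
    (hq : ∀ q ∈ Q, q.Prime ∧ n < q) (g : ℕ → ℤˣ) (x : ℕ) :
    2 ^ Q.card * 2 ^ (n + 1) ≤ (n + 2) * ((prs n Q).filter (fun p =>
      x / (∏ q ∈ Q, q ^ 2) ≤ 2 ^ n * cnt (twist g p.1) p.2 x)).card :=
  one_le Q hQ _ (good_ge (K := 1) Q (by rw [hQ, one_mul]) hq g x)

theorem main_one_freq (Q : Finset ℕ) (hQ : Q.card = n + 1)
    (hq : ∀ q ∈ Q, q.Prime ∧ n < q) (g : ℕ → ℤˣ)
    [DecidablePred fun p : Finset ℕ × (Fin n → ℤˣ) =>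
      Freq (twist g p.1) p.2 (∏ q ∈ Q, q ^ 2)] :
    2 ^ Q.card * 2 ^ (n + 1) ≤ (n + 2) * ((prs n Q).filter (fun p =>
      Freq (twist g p.1) p.2 (∏ q ∈ Q, q ^ 2))).card :=
  one_le Q hQ _ (good_freq (K := 1) Q (by rw [hQ, one_mul]) hq g)

end Pool.Agent.N318.BC
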